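import Pool.Agent.H77.WC.Stm

set_option autoImplicit false

namespace Pool.Agent.H43.WC

open Filter Topology Set MeasureTheory
open scoped BigOperators
open Pool.Agent.H77.WC

theorem meas_per (L a : ℝ) : Measurable (per L a) := by
  unfold per
  apply Measurable.ite
  · exact measurableSet_lt (measurable_fract.comp (measurable_id.div_const L)) measurable_const
  · exact measurable_const
  · exact measurable_const

theorem per_cases (L a t : ℝ) : per L a t = 1 ∨ per L a t = 0 := by
  unfold per
  split_ifs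
  · exact Or.inl rfl
  · exact Or.inr rfl

theorem bd1_one_sub (L a : ℝ) : Bd1 (fun t => 1 - per L a t) := by
  refine ⟨measurable_const.sub (meas_per L a), fun t => ?_⟩
  rcases per_cases L a t with h | h
  · simp [h]
  · simp [h]

theorem int_per (L a T : ℝ) : IntervalIntegrable (per L a) volume 0 T := by
  rw [intervalIntegrable_iff]
  refine Measure.integrableOn_of_bounded (M := 1) (by simp) (meas_per L a).aestronglyMeasurable ?_
  refine Filter.Eventually.of_forall fun t => ?_
  rcases per_cases L a t with h | h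
  · simp [h]
  · simp [h]

theorem ap_one_sub (Λ : AddSubgroup ℝ) (g : ℝ → ℂ) (h : AP Λ g) : AP Λ (fun t => 1 - g t) := by
  classical
  intro ε hε
  obtain ⟨s, c, hs, hc⟩ := h ε hε
  refine ⟨insert 0 s, fun l => (if l = 0 then 1 else 0) - (if l ∈ s then c l else 0), ?_, ?_⟩
  · intro l hl
    rcases Finset.mem_insert.1 hl with rfl | hl
    · exact Λ.zero_mem
    · exact hs l hl
  · have key : ∀ t, trig (insert 0 s) (fun l => (if l = 0 then (1 : ℂ) else 0) -
        (if l ∈ s then c l else 0)) t = 1 - trig s c t := by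
      intro t
      unfold trig
      simp only [sub_mul, Finset.sum_sub_distrib]
      congr 1
      · rw [Finset.sum_eq_single 0]
        · simp
        · intro l _ hl
          simp [hl]
        · intro h; exact absurd (Finset.mem_insert_self 0 s) h
      · have : ∀ l ∈ insert 0 s, (if l ∈ s then c l else 0) * Complex.exp (((l * t : ℝ) : ℂ) * Complex.I) =
            if l ∈ s then c l * Complex.exp (((l * t : ℝ) : ℂ) * Complex.I) else 0 := by
          intro l _
          split_ifs
          · rfl
          · rw [zero_mul]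
        rw [Finset.sum_congr rfl this, Finset.sum_ite_mem]
        have h2 : insert 0 s ∩ s = s := Finset.inter_eq_right.2 (Finset.subset_insert 0 s)
        rw [h2]
    filter_upwards [hc] with T hT
    refine le_trans (le_of_eq ?_) hT
    congr 1
    funext t
    rw [key t]
    have : 1 - g t - (1 - trig s c t) = -(g t - trig s c t) := by ring
    rw [this, norm_neg]

theorem mv_one_sub (g : ℝ → ℂ) (m : ℂ) (hi : ∀ T, IntervalIntegrable g volume 0 T) (h : MV g m) :
    MV (fun t => 1 - g t) (1 - m) := by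
  unfold MV at h ⊢
  have h1 : Tendsto (fun T : ℝ => (1 : ℂ) - (∫ t in (0 : ℝ)..T, g t) / (T : ℂ)) atTop (𝓝 (1 - m)) :=
    tendsto_const_nhds.sub h
  refine h1.congr' ?_
  filter_upwards [eventually_gt_atTop 0] with T hT
  have hT' : (T : ℂ) ≠ 0 := by exact_mod_cast hT.ne'
  rw [intervalIntegral.integral_sub (by simp) (hi T)]
  rw [sub_div]
  congr 1
  simp [hT']

theorem mp_bd (p : ℕ) (hp : p.Prime) : 0 ≤ mp p ∧ mp p ≤ 1 := by
  have h2 : (2 : ℝ) ≤ p := by exact_mod_cast hp.two_le
  have hl : 0 < Real.log p := Real.log_pos (by linarith)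
  have h3 : (1 : ℝ) / p ≤ 1 / 2 := by
    apply one_div_le_one_div_of_le (by norm_num) h2
  have h4 : (0 : ℝ) ≤ 1 / p := by positivity
  unfold mp
  constructor
  · apply div_nonneg (Real.log_nonneg (by linarith)) hl.le
  · rw [div_le_one hl]
    apply Real.log_le_log (by linarith) (by linarith)

theorem disj (p q : ℕ) (hp : p.Prime) (hq : q.Prime) (hpq : p ≠ q) :
    AddSubgroup.zmultiples (2 * Real.pi / Real.log p) ⊓
      AddSubgroup.zmultiples (2 * Real.pi / Real.log q) = ⊥ := by
  rw [eq_bot_iff]
  intro x hx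
  obtain ⟨⟨n, hn⟩, ⟨m, hm⟩⟩ := AddSubgroup.mem_inf.1 hx
  have hp2 : (2 : ℝ) ≤ p := by exact_mod_cast hp.two_le
  have hq2 : (2 : ℝ) ≤ q := by exact_mod_cast hq.two_le
  have hlp : 0 < Real.log p := Real.log_pos (by linarith)
  have hlq : 0 < Real.log q := Real.log_pos (by linarith)
  have hn' : (n : ℝ) * (2 * Real.pi / Real.log p) = x := by
    rw [← hn]; simp
  have hm' : (m : ℝ) * (2 * Real.pi / Real.log q) = x := by
    rw [← hm]; simp
  have hpi := Real.pi_pos
  have h1 : (n : ℝ) * Real.log q = m * Real.log p := by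
    have h0 : (n : ℝ) * (2 * Real.pi / Real.log p) = (m : ℝ) * (2 * Real.pi / Real.log q) := by
      rw [hn', hm']
    field_simp at h0
    have h00 : (n : ℝ) * Real.log q = Real.log p * m := by linarith
    linarith
  have hn0 : n = 0 := by
    by_contra hne
    have h2 : (n.natAbs : ℝ) * Real.log q = m.natAbs * Real.log p := by
      have h3 := congrArg abs h1
      rw [abs_mul, abs_mul, abs_of_pos hlq, abs_of_pos hlp] at h3
      rw [Nat.cast_natAbs, Nat.cast_natAbs]
      push_cast
      exact h3
    rw [← Real.log_pow, ← Real.log_pow] at h2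
    have h4 : ((q : ℝ) ^ n.natAbs) = (p : ℝ) ^ m.natAbs :=
      Real.log_injOn_pos (by simp only [Set.mem_Ioi]; positivity) (by simp only [Set.mem_Ioi]; positivity) h2
    have h5 : q ^ n.natAbs = p ^ m.natAbs := by exact_mod_cast h4
    have h6 : q ∣ p ^ m.natAbs := by
      rw [← h5]
      exact dvd_pow_self q (Int.natAbs_ne_zero.2 hne)
    have h7 := hq.dvd_of_dvd_pow h6
    exact hpq ((Nat.prime_dvd_prime_iff_eq hq hp).1 h7).symm
  rw [← hn', hn0]
  simp

theorem l23 (hI : S_IND) (hP : S_PIN) : S_L23 := by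
  intro p q hp hq hpq
  have hp2 : (2 : ℝ) ≤ p := by exact_mod_cast hp.two_le
  have hq2 : (2 : ℝ) ≤ q := by exact_mod_cast hq.two_le
  have hlp : 0 < Real.log p := Real.log_pos (by linarith)
  have hlq : 0 < Real.log q := Real.log_pos (by linarith)
  obtain ⟨a1, m1⟩ := hP (Real.log p) (mp p) hlp (mp_bd p hp).1 (mp_bd p hp).2
  obtain ⟨a2, m2⟩ := hP (Real.log q) (mp q) hlq (mp_bd q hq).1 (mp_bd q hq).2
  have h := hI _ _ (fun t => 1 - per (Real.log p) (mp p) t) (fun t => 1 - per (Real.log q) (mp q) t)
    (1 - (mp p : ℂ)) (1 - (mp q : ℂ)) (disj p q hp hq hpq) (bd1_one_sub _ _) (bd1_one_sub _ _)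
    (ap_one_sub _ _ a1) (ap_one_sub _ _ a2) (mv_one_sub _ _ (int_per _ _) m1)
    (mv_one_sub _ _ (int_per _ _) m2)
  have e : GS {p, q} = fun t => (1 - per (Real.log p) (mp p) t) * (1 - per (Real.log q) (mp q) t) := by
    funext t
    unfold GS
    rw [Finset.prod_pair hpq]
  rw [e]
  push_cast
  exact h

end Pool.Agent.H43.WC
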